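import Mathlib
import Pool.Agent.H162R3.SK.Stmts

set_option autoImplicit false
set_option linter.all false

/-! Task H162-SK TaskDens. -/

open Set Cardinal

namespace Pool.Agent.H455R3.SK

open Pool.Agent.H162R3.SK

theorem lt_aleph_omega {c : Cardinal.{0}} (h : c < ℵ_ Ordinal.omega0) :
    ∃ n : ℕ, c < ℵ_ (n : Ordinal) := by
  rw [aleph_limit Ordinal.isSuccLimit_omega0] at h
  haveI : Nonempty (Set.Iio Ordinal.omega0.{0}) := ⟨⟨0, Ordinal.omega0_pos⟩⟩
  obtain ⟨⟨a, ha⟩, h2⟩ := exists_lt_of_lt_ciSup h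
  obtain ⟨n, rfl⟩ := Ordinal.lt_omega0.mp ha
  exact ⟨n, h2⟩

theorem taskDens : TaskDens := by
  intro X D hD
  obtain ⟨r, wo, hr⟩ := exists_ord_eq D
  have hlt : ∀ d : D, (Ordinal.typein r d).card < ℵ_ Ordinal.omega0 := by
    intro d
    have h1 : Ordinal.typein r d < ord #D := by
      rw [hr]
      exact Ordinal.typein_lt_type r d
    exact lt_of_lt_of_le (lt_ord.mp h1) hD
  refine ⟨fun n => {x | ∃ h : x ∈ D, (Ordinal.typein r ⟨x, h⟩).card < ℵ_ ((n : Ordinal) + 1)}, ?_, ?_⟩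
  · ext x
    simp only [mem_iUnion, mem_setOf_eq]
    constructor
    · intro hx
      obtain ⟨n, hn⟩ := lt_aleph_omega (hlt ⟨x, hx⟩)
      refine ⟨n, hx, hn.trans_le ?_⟩
      exact aleph_le_aleph.mpr (le_add_of_nonneg_right zero_le_one)
    · rintro ⟨n, hx, _⟩
      exact hx
  · intro n
    set κ : Cardinal.{0} := ℵ_ ((n : Ordinal) + 1) with hκ
    let f : ({x | ∃ h : x ∈ D, (Ordinal.typein r ⟨x, h⟩).card < κ} : Set X) →
        Set.Iio (κ.ord) := fun x => ⟨Ordinal.typein r ⟨x.1, x.2.choose⟩, lt_ord.mpr x.2.choose_spec⟩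
    have hf : Function.Injective f := by
      intro x y hxy
      have h1 : Ordinal.typein r ⟨x.1, x.2.choose⟩ = Ordinal.typein r ⟨y.1, y.2.choose⟩ :=
        congrArg Subtype.val hxy
      have h2 := Ordinal.typein_injective r h1
      exact Subtype.ext (Subtype.mk.inj h2)
    have h1 := Cardinal.lift_mk_le_lift_mk_of_injective hf
    have h2 : #(Set.Iio (κ.ord)) = Cardinal.lift.{1} κ := by
      rw [Cardinal.mk_Iio_ordinal, card_ord]
    rw [h2, Cardinal.lift_lift, Cardinal.lift_le] at h1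
    exact h1

end Pool.Agent.H455R3.SK
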